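import Mathlib
import Pool.Agent.H25.Bin

open PowerSeries Finset Pool.Agent.H25.Dis Pool.Agent.H25.Bin

namespace Pool.Agent.Results.MP_918176_nt.Both

/-- The series `1 / (1 - x ^ d) = 1 + x ^ d + x ^ (2 d) + ⋯`. -/
noncomputable def geo (d : ℕ) : ℤ⟦X⟧ := PowerSeries.mk fun j => if d ∣ j then 1 else 0

/-- `c m n`: the coefficient of `x ^ n` in `(1 - x) ^ (-m) ∏ i, (1 - x ^ 2 ^ i) ^ (-m)`;
the factors with `i > n` are `1` modulo `x ^ (n + 1)` and are left out. -/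
noncomputable def c (m n : ℕ) : ℤ :=
  coeff n (geo 1 ^ m * ∏ i ∈ range (n + 1), geo (2 ^ i) ^ m)

lemma c_eq (m n : ℕ) : c m n = coeff n (F m m) := (coeff_mk n (cc m m)).symm

lemma step (m n : ℕ) (A : ℤ⟦X⟧) :
    coeff (2 * n) (A * F m m) = coeff n (U 0 (A * (2 * y - 1) ^ m) * F m m) := by
  rw [← U_mul two_pos, coeff_U, mul_assoc, ← F_eq', add_zero]

lemma iter {m : ℕ} {P : ℕ → ℤ⟦X⟧ → Prop} {B : ℤ⟦X⟧}
    (h0 : U 0 (U 0 ((2 * y - 1) ^ m) * (2 * y - 1) ^ m) = 1 + z * B) (h1 : P 0 B)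
    (h : ∀ j B, P j B → ∃ W, P (j + 1) W ∧ U 0 (z * (B * (2 * y - 1) ^ m)) = z * W) (j : ℕ) :
    ∃ W, P j W ∧ ∀ t, c m (4 * (2 ^ j * t)) - c m (2 ^ j * t) = coeff t (z * W * F m m) := by
  induction j with
  | zero =>
    refine ⟨B, h1, fun t => ?_⟩
    have := step m (2 * t) 1
    rw [one_mul, one_mul, step, h0, ← mul_assoc, add_mul, one_mul, map_add] at this
    simp [c_eq, show coeff (4 * t) (F m m) = _ from this]
  | succ j ih =>
    obtain ⟨V, h2, h3⟩ := ih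
    obtain ⟨W, h4, h5⟩ := h j V h2
    exact ⟨W, h4, fun t => by rw [pow_succ, mul_assoc, h3, step, mul_assoc z, h5]⟩

lemma s_mem (m : ℕ) : (2 * y - 1) ^ m ∈ Sp fun k e => k ≤ e := by
  induction m with
  | zero => exact one_mem le_rfl
  | succ m ih =>
    refine mul ih (sub_mem ?_ (one_mem (φ := fun k e => k ≤ e) le_rfl)) (by omega)
    simpa using gen (φ := fun k e => k ≤ e) (k := 1) (e := 1) le_rfl

abbrev Χ (d k e : ℕ) : Prop := (k = 0 ∧ d + 1 ≤ e) ∨ (d + 2 ≤ e ∧ d + k ≤ e)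

lemma z_mem : z ∈ Sp fun k e => 1 ≤ k ∧ k ≤ 2 + e := by
  simpa [z] using sub_mem (gen (φ := fun k e => 1 ≤ k ∧ k ≤ 2 + e) (k := 2) (e := 0) (by omega))
    (gen (k := 1) (e := 0) (by omega))

lemma two_mem (e : ℕ) : (2 : ℤ⟦X⟧) ^ e ∈ Sp fun k f => k = 0 ∧ f = e := by
  simpa using gen (φ := fun k f => k = 0 ∧ f = e) ⟨rfl, rfl⟩

lemma s_sq : (2 * y - 1) ^ 2 = 1 + 2 ^ 2 * z := by rw [z]; ring

lemma even_step {k d : ℕ} {B : ℤ⟦X⟧} (h : B - 2 ^ d ∈ Sp (Χ d)) : ∃ W,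
    W - 2 ^ (d + 1) ∈ Sp (Χ (d + 1)) ∧ U 0 (z * (B * (2 * y - 1) ^ (2 * k))) = z * W := by
  have h1 : (2 * y - 1) ^ (2 * k) - 1 ∈ Sp fun k e => 2 ≤ e ∧ k ≤ e := by
    induction k with
    | zero => simp
    | succ k ih =>
      rw [show (2 * y - 1) ^ (2 * (k + 1)) - 1 = (2 * y - 1) ^ (2 * k) - 1 +
        (2 * y - 1) ^ (2 * k) * (2 ^ 2 * z) by rw [mul_add, pow_add, s_sq]; ring]
      exact add_mem ih (mul (s_mem _) (mul (χ := fun k e => 2 ≤ e ∧ k ≤ e) (two_mem 2) z_mem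
        (by omega)) (by omega))
  obtain ⟨W, h2, h3⟩ := Uz (ψ := Χ (d + 1)) (add_mem (add_mem h (mul h h1 (by omega)))
    (mul (two_mem d) h1 (by omega))) (by omega)
  refine ⟨W + 2 ^ (d + 1), by simpa, ?_⟩
  have e : U 0 (z * ex (2 ^ d)) = z * 2 ^ (d + 1) := by
    have := ev_ub two_pos [0, -1, 1]
    rw [show ub 0 [0, -1, 1] = [0, -2, 2] by decide,
      show ev [0, -1, 1] = z by simp [ev, z]; ring] at this
    rw [U_mul two_pos, ← this]; simp [ev, z]; ring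
  rw [mul_add, ← h3, ← e, ← map_add]
  congr 1
  simp [map_ofNat]; ring

open Polynomial.Chebyshev in
lemma cheb (k : ℕ) : U 0 ((2 * y - 1) ^ (2 * k)) = Polynomial.aeval (1 + 8 * z) (T ℤ k) := by
  induction k using Nat.twoStepInduction with
  | zero => simpa using (U_C 1).1
  | one =>
    have := ev_ub two_pos [1, -4, 4]
    rw [show ub 0 [1, -4, 4] = [1, -8, 8] by decide] at this
    convert this.symm using 1
    · congr 1; simp [ev]; ring
    · simp [ev, z]; ring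
  | more k h0 h1 =>
    have : (2 * y - 1) ^ (2 * (k + 2)) =
        (2 * y - 1) ^ (2 * (k + 1)) * ex (2 * (1 + 8 * z)) - (2 * y - 1) ^ (2 * k) := by
      have := y_sq
      simp only [z, map_mul, map_pow, map_ofNat, map_add, map_one, map_sub] at this ⊢
      linear_combination (2 * y - 1) ^ (2 * k) * (16 * y ^ 2 - 32 * y + 32 * y * ex y + 16 -
        16 * ex y) * this
    rw [this, map_sub, U_mul two_pos, h0, h1]
    push_cast
    rw [T_add_two]
    simp [map_ofNat]; ring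

open Polynomial.Chebyshev in
lemma cheb_mem (a o : ℕ) (ho : Odd o) : ∃ B, B - 2 ^ (2 * a + 3) ∈ Sp (Χ (2 * a + 3)) ∧
    Polynomial.aeval (1 + 8 * z) (T ℤ (2 ^ a * o : ℕ)) = 1 + z * B := by
  have hw : 2 ^ 3 * z ∈ Sp fun k e => 3 ≤ e ∧ k + 1 ≤ e := mul (two_mem 3) z_mem (by omega)
  induction a with
  | zero =>
    have (k : ℕ) : ∃ Q ∈ Sp fun k e => k ≤ e, Polynomial.aeval (1 + 8 * z) (T ℤ k) =
        1 + k ^ 2 * (8 * z) + (8 * z) ^ 2 * Q := by
      induction k using Nat.twoStepInduction with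
      | zero => exact ⟨0, zero_mem _, by simp⟩
      | one => exact ⟨0, zero_mem _, by simp⟩
      | more k h0 h1 =>
        obtain ⟨P, h2, h3⟩ := h0
        obtain ⟨Q, h4, h5⟩ := h1
        refine ⟨_, sub_mem (add_mem (int_mul 2 (add_mem h4 (mul hw h4 (by omega))))
          (int_mul (2 * (k + 1) ^ 2) (one_mem le_rfl))) h2, ?_⟩
        push_cast at *
        rw [T_add_two]
        simp [h3, h5, map_ofNat]; ring
    obtain ⟨Q, h1, h2⟩ := this o
    obtain ⟨r, rfl⟩ := ho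
    refine ⟨8 * (2 * r + 1) ^ 2 + 2 ^ 3 * (2 ^ 3 * z * Q), ?_, by
      rw [pow_zero, one_mul, h2]; push_cast; ring⟩
    convert add_mem (int_mul (r ^ 2 + r) (gen (φ := Χ 3) (k := 0) (e := 5) (by omega)))
      (mul (two_mem 3) (mul (χ := fun k e => 3 ≤ e ∧ k + 1 ≤ e) hw h1 (by omega)) (by omega))
      using 1
    simp; ring
  | succ a ih =>
    obtain ⟨B, h1, h2⟩ := ih
    have h3 : B ∈ Sp fun k e => 2 * a + 3 + k ≤ e := by
      simpa using add_mem (mono h1 (by omega)) (mono (ψ := fun k e => 2 * a + 3 + k ≤ e)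
        (two_mem (2 * a + 3)) (by omega))
    refine ⟨2 ^ 2 * B + z * (2 ^ 1 * (B * B)), ?_, ?_⟩
    · convert add_mem (mul (χ := Χ (2 * (a + 1) + 3)) (two_mem 2) h1 (by omega)) (mul z_mem
        (mul (χ := fun k e => 4 * a + 7 + k ≤ e) (two_mem 1)
          (mul (χ := fun k e => 4 * a + 6 + k ≤ e) h3 h3 (by omega)) (by omega)) (by omega))
        using 1
      ring
    · rw [pow_succ', mul_assoc, Nat.cast_mul, T_mul, Polynomial.aeval_comp, h2]
      simp [T_two, map_ofNat]; ring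

lemma F_odd (m : ℕ) : C 2 ∣ F m m - 1 := by
  obtain ⟨D, hD⟩ : 2 ∣ (2 * y - 1) ^ m - (-1) ^ m := by
    simpa using (dvd_mul_right 2 y).trans (by simpa using sub_dvd_pow_sub_pow (2 * y - 1) (-1) m)
  have (n : ℕ) : 2 ∣ coeff n (F m m - 1) := by
    induction n using Nat.strong_induction_on with
    | _ n ih =>
      rcases n.eq_zero_or_pos with rfl | hn
      · simp [F_zero]
      have h := ih (n / 2) (by omega)
      rw [F_eq', eq_add_of_sub_eq hD, add_mul, mul_assoc, show (2 : ℤ⟦X⟧) = C 2 from rfl,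
        show (-1 : ℤ⟦X⟧) ^ m = C ((-1) ^ m) by simp, map_sub, map_add, coeff_C_mul, coeff_C_mul,
        coeff_one, if_neg hn.ne', sub_zero, coeff_expand]
      refine dvd_add (dvd_mul_right _ _) (Dvd.dvd.mul_left ?_ _)
      split_ifs
      · rwa [map_sub, coeff_one, if_neg (by omega), sub_zero] at h
      · simp
  choose a ha using this
  exact ⟨PowerSeries.mk a, PowerSeries.ext fun n => by rw [coeff_C_mul, coeff_mk, ha]⟩

def dz : ℤ → List ℤ → List ℤ
  | _, [] => []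
  | p, a :: l => (p - a) :: dz (p - a) l

def r15 : List ℤ := (ml [-1, 2])^[15] [1]

def a2 : List ℤ := ub 0 (ml (ub 0 r15) r15)

theorem result :
    (∀ k n : ℕ, 1 ≤ k → 1 ≤ n → emultiplicity 2 (c (2 * k) (4 * n) - c (2 * k) n) =
      (padicValNat 2 n + 2 * padicValNat 2 k + 3 : ℕ)) ∧
    ∀ n : ℕ, 1 ≤ n →
      (padicValNat 2 n + 7 : ℕ) ≤ emultiplicity 2 (c (4 * 3 + 3) (4 * n) - c (4 * 3 + 3) n) := by
  have v (j t : ℕ) (ht : Odd t) : padicValNat 2 (2 ^ j * t) = j := by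
    rw [padicValNat.mul (by positivity) ht.pos.ne', padicValNat.prime_pow,
      padicValNat.eq_zero_of_not_dvd ht.not_two_dvd_nat, add_zero]
  refine ⟨fun k n hk hn => ?_, fun n hn => ?_⟩
  · obtain ⟨a, o, ho, rfl⟩ := Nat.exists_eq_two_pow_mul_odd (by omega : k ≠ 0)
    obtain ⟨j, t, ht, rfl⟩ := Nat.exists_eq_two_pow_mul_odd (by omega : n ≠ 0)
    obtain ⟨B, h1, h2⟩ := cheb_mem a o ho
    obtain ⟨V, h3, h4⟩ := even_step (k := 2 ^ a * o) h1
    obtain ⟨W, h5, h6⟩ := iter (m := 2 * (2 ^ a * o)) (B := B + V)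
      (P := fun j B => B - 2 ^ (2 * a + 3 + j) ∈ Sp (Χ (2 * a + 3 + j)))
      (by rw [cheb, h2, add_mul, one_mul, map_add, cheb, h2, mul_assoc, h4]; ring) (by
        simpa [add_sub_right_comm, add_assoc] using add_mem (add_mem h1 (mono h3 (by omega)))
          (mono (two_mem (2 * a + 3 + 1)) (by omega))) (fun _ _ => even_step) j
    obtain ⟨D, hD⟩ := dvd_of_mem (d := 2 * a + 3 + j + 1) h5 (by omega)
    obtain ⟨E, hE⟩ := F_odd (2 * (2 ^ a * o))
    have e : z * W * F (2 * (2 ^ a * o)) (2 * (2 ^ a * o)) = C (2 ^ (2 * a + 3 + j)) *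
        (z + C 2 * (z * (E + D * F (2 * (2 ^ a * o)) (2 * (2 ^ a * o))))) := by
      rw [eq_add_of_sub_eq hD, eq_add_of_sub_eq hE]; simp; ring
    rw [h6, e, v _ _ ht, v _ _ ho, coeff_C_mul, map_add, coeff_C_mul, coeff_z,
      show j + 2 * a + 3 = 2 * a + 3 + j by ring, emultiplicity_eq_coe, pow_succ,
      mul_dvd_mul_iff_left (by positivity)]
    obtain ⟨s, rfl⟩ := ht
    exact ⟨dvd_mul_right _ _, by omega⟩
  · obtain ⟨j, t, ht, rfl⟩ := Nat.exists_eq_two_pow_mul_odd (by omega : n ≠ 0)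
    have e : ev r15 = (2 * y - 1) ^ 15 := by simp [r15, ev_ml, ev]; ring
    have h := ev_mem (φ := fun _ _ => False)
      (ad a2 ((ad [1] (ml [0, -1, 1] (dz 0 a2.tail))).map (-1 * ·))) (by decide +kernel)
    obtain ⟨W, h5, h6⟩ := iter (m := 15) (B := ev (dz 0 a2.tail))
      (P := fun j B => B ∈ Sp fun k e => 7 + j + k ≤ e) (by
        have := ind (S := ⊥) (.id _) h (by simp)
        rw [ev_ad, ev_map, ev_ad, ev_ml, show ev a2 = _ from ev_ub two_pos _, ev_ml,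
          ev_ub two_pos, e] at this
        simp [ev] at this
        rw [z]; linear_combination this) (ev_mem _ (by decide +kernel))
      (fun j B h => by
        simpa using Uz (mul (χ := fun k e => 7 + j + k ≤ e) h (s_mem 15) (by omega)) (by omega)) j
    obtain ⟨D, hD⟩ := dvd_of_mem (d := j + 7) h5 (by omega)
    rw [h6, v _ _ ht, hD, mul_left_comm, mul_assoc, show (2 : ℤ⟦X⟧) = C 2 from rfl, ← map_pow,
      coeff_C_mul]
    exact le_emultiplicity_of_pow_dvd (dvd_mul_right _ _)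

end Pool.Agent.Results.MP_918176_nt.Both
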